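import Mathlib
import Pool.Agent.H84.HilbDefs
import Pool.Agent.H84.Hilb

set_option autoImplicit false

namespace Pool.Agent.Results.MP_28bd58_gt.LeTwo

open Pool.Agent.H84.HilbDefs

/-- The Erdos ratio of every Hilbert plane is at most 2, the value for the hyperbolic plane. -/
theorem result (M : Set Pl) (d : Pl → Pl → ℝ) (hne : M.Nonempty) (hop : IsOpen M)
    (hcv : Convex ℝ M) (hbd : Bornology.IsBounded M) (hd : IsHilbertMetric M d) :
    (ratios M d).Nonempty ∧ BddBelow (ratios M d) ∧ sInf (ratios M d) ≤ 2 := by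
  obtain ⟨O, hO⟩ := hne
  have c : H84.Hilb.Ctx M O := ⟨hop, hcv, hbd, hO⟩
  have hb := H84.Hilb.bddBelow hop hcv hbd hd
  refine ⟨(c.main hd one_pos).imp fun _ h => h.1, hb, le_of_forall_pos_le_add fun ε hε => ?_⟩
  obtain ⟨r, hr, h⟩ := c.main hd hε
  exact (csInf_le hb hr).trans h.le

end Pool.Agent.Results.MP_28bd58_gt.LeTwo
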